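import Pool.Agent.helper47.MSW.SpecC

/-!
# Row `DEC` of project msw (MP_a87880_co): exchange
-/

set_option autoImplicit false

namespace Pool.Agent.MSW

open Equiv Finset Function MeasureTheory Pool.Agent.helper48.PP
open Pool.Agent.DSW (Pr Has GP wt)
open scoped ENNReal Classical

/-- The effect of a transposition on the sum. -/
theorem DEC_sum {n : ℕ} (π : Perm (Fin n)) (i j : Fin n) (hij : i < j) (hπ : π j < π i) :
    ∑ k : Fin n, ((k : ℕ) : ℤ) * ((π k : ℕ) : ℤ) <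
      ∑ k : Fin n, ((k : ℕ) : ℤ) * (((π * swap i j) k : ℕ) : ℤ) := by
  have h1 : ∑ k : Fin n, ((k : ℕ) : ℤ) * (((π * swap i j) k : ℕ) : ℤ) =
      ∑ k : Fin n, (((swap i j) k : ℕ) : ℤ) * ((π k : ℕ) : ℤ) := by
    rw [← Equiv.sum_comp (swap i j)
      (fun k : Fin n => (((swap i j) k : ℕ) : ℤ) * ((π k : ℕ) : ℤ))]
    refine Finset.sum_congr rfl fun k _ => ?_
    rw [Equiv.swap_apply_self, Perm.mul_apply]
  rw [h1, ← sub_pos, ← Finset.sum_sub_distrib]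
  have h2 : ∑ k : Fin n, ((((swap i j) k : ℕ) : ℤ) * ((π k : ℕ) : ℤ) - ((k : ℕ) : ℤ) * ((π k : ℕ) : ℤ)) =
      ((((swap i j) i : ℕ) : ℤ) * ((π i : ℕ) : ℤ) - ((i : ℕ) : ℤ) * ((π i : ℕ) : ℤ)) +
      ((((swap i j) j : ℕ) : ℤ) * ((π j : ℕ) : ℤ) - ((j : ℕ) : ℤ) * ((π j : ℕ) : ℤ)) := by
    refine Finset.sum_eq_add i j hij.ne ?_ ?_ ?_
    · intro k _ hk
      rw [Equiv.swap_apply_of_ne_of_ne hk.1 hk.2, sub_self]
    · intro h
      exact absurd (Finset.mem_univ i) h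
    · intro h
      exact absurd (Finset.mem_univ j) h
  rw [h2, Equiv.swap_apply_left, Equiv.swap_apply_right]
  have h3 : ((i : ℕ) : ℤ) < ((j : ℕ) : ℤ) := by exact_mod_cast hij
  have h4 : ((π j : ℕ) : ℤ) < ((π i : ℕ) : ℤ) := by exact_mod_cast hπ
  nlinarith [mul_pos (sub_pos.2 h3) (sub_pos.2 h4)]

theorem DEC : DEC_stmt := by
  intro n x y Bx hx hy hrev
  have hne : ((Finset.univ : Finset (Perm (Fin n))).filter
      (fun π => ∀ i, ∃ b ∈ Bx, (x i, y (π i)) ∈ box b.1 b.2)).Nonempty := by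
    refine ⟨Fin.revPerm, Finset.mem_filter.2 ⟨Finset.mem_univ _, fun i => ?_⟩⟩
    exact hrev i
  obtain ⟨π, hπ, hmax⟩ := Finset.exists_max_image _
    (fun π : Perm (Fin n) => ∑ k : Fin n, ((k : ℕ) : ℤ) * ((π k : ℕ) : ℤ)) hne
  have hπ' := (Finset.mem_filter.1 hπ).2
  refine ⟨π, hπ', ?_⟩
  rintro b hb i j hij hlt ⟨hi, hj⟩
  have hlt' := DEC_sum π i j hij hlt
  rw [mem_box] at hi hj
  have hmem : (π * swap i j) ∈ ((Finset.univ : Finset (Perm (Fin n))).filter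
      (fun π => ∀ i, ∃ b ∈ Bx, (x i, y (π i)) ∈ box b.1 b.2)) := by
    refine Finset.mem_filter.2 ⟨Finset.mem_univ _, fun k => ?_⟩
    rw [Perm.mul_apply]
    by_cases hki : k = i
    · subst hki
      rw [Equiv.swap_apply_left]
      refine ⟨b, hb, ?_⟩
      rw [mem_box]
      exact ⟨⟨hi.1.1, hj.1.2⟩, ⟨hi.2.1, hj.2.2⟩⟩
    · by_cases hkj : k = j
      · subst hkj
        rw [Equiv.swap_apply_right]
        refine ⟨b, hb, ?_⟩
        rw [mem_box]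
        exact ⟨⟨hj.1.1, hi.1.2⟩, ⟨hj.2.1, hi.2.2⟩⟩
      · rw [Equiv.swap_apply_of_ne_of_ne hki hkj]
        exact hπ' k
  exact absurd (hmax _ hmem) (not_le.2 hlt')

end Pool.Agent.MSW
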